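import Pool.Agent.helper64.PB.SpecL

set_option autoImplicit false

namespace Pool.Agent.PB

theorem BIN_two (hAPP : APP_stmt) (n : ℕ) (g : BF 2) (hg : (⟨2, g⟩ : Gate) ∈ std) (u v : BF n)
    (s t : ℕ) (hu : Size std u s) (hv : Size std v t) :
    Size std (fun x => g (fun i => (![u, v] : Fin 2 → BF n) i x)) (s + t + 1) := by
  obtain ⟨l, hl, hlen, hav⟩ := hu
  obtain ⟨l', hl', hlen', hav'⟩ := hv
  have h := hAPP std n l l' hl hl'
  refine ⟨_, Prog.step (l ++ l') (⟨2, g⟩ : Gate) ![u, v] h hg ?_, ?_, Or.inl List.mem_cons_self⟩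
  · have key : ∀ i : Fin 2, i = 0 ∨ i = 1 := by decide
    intro i
    have hi : i = (0 : Fin 2) ∨ i = (1 : Fin 2) := key i
    rcases hi with rfl | rfl
    · change u ∈ l ++ l' ∨ _
      rcases hav with h1 | h1
      · exact Or.inl (List.mem_append_left _ h1)
      · exact Or.inr h1
    · change v ∈ l ++ l' ∨ _
      rcases hav' with h1 | h1
      · exact Or.inl (List.mem_append_right _ h1)
      · exact Or.inr h1
  · rw [List.length_cons, List.length_append]
    omega

theorem BIN_and (hAPP : APP_stmt) (n : ℕ) (u v : BF n) (s t : ℕ) (hu : Size std u s)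
    (hv : Size std v t) : Size std (fun x => u x && v x) (s + t + 1) :=
  BIN_two hAPP n (fun x => x 0 && x 1) (by simp [std, gAnd]) u v s t hu hv

theorem BIN_or (hAPP : APP_stmt) (n : ℕ) (u v : BF n) (s t : ℕ) (hu : Size std u s)
    (hv : Size std v t) : Size std (fun x => u x || v x) (s + t + 1) :=
  BIN_two hAPP n (fun x => x 0 || x 1) (by simp [std, gOr]) u v s t hu hv

theorem BIN_not (n : ℕ) (u : BF n) (s : ℕ) (hu : Size std u s) :
    Size std (fun x => !(u x)) (s + 1) := by
  obtain ⟨l, hl, hlen, hav⟩ := hu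
  refine ⟨_, Prog.step l gNot ![u] hl (by simp [std]) ?_, ?_, Or.inl List.mem_cons_self⟩
  · have key : ∀ i : Fin 1, i = 0 := by decide
    intro i
    have hi : i = (0 : Fin 1) := key i
    rw [hi]
    exact hav
  · rw [List.length_cons]
    omega

theorem BIN_const (b : Bool) (n : ℕ) (f : BF n) (hf : ∀ x, f x = b) : Size std f 1 := by
  have e : f = fun x => (gConst b).2 fun i => (fun j : Fin 0 => f) i x := by
    funext x
    exact hf x
  refine ⟨[f], ?_, le_refl _, Or.inl List.mem_cons_self⟩
  rw [e]
  refine Prog.step [] (gConst b) (fun j : Fin 0 => f) Prog.nil ?_ (fun i => i.elim0)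
  cases b
  · simp [std]
  · simp [std]

theorem BIN (_hSUB : SUB_stmt) (hAPP : APP_stmt) : BIN_stmt := by
  refine ⟨fun n u v s t hu hv => ⟨BIN_and hAPP n u v s t hu hv, BIN_or hAPP n u v s t hu hv,
    BIN_not n u s hu⟩, ?_⟩
  intro m
  induction m with
  | zero =>
    intro n φ
    refine ⟨BIN_const true n _ ?_, BIN_const false n _ ?_⟩
    · intro x
      exact decide_eq_true fun i => i.elim0
    · intro x
      exact decide_eq_false fun ⟨i, _⟩ => i.elim0
  | succ m ih =>
    intro n φ
    obtain ⟨h1, h2⟩ := ih n (fun i => φ i.succ)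
    have hv : Size std (fun x : Fin n → Bool => x (φ 0)) 0 :=
      ⟨[], Prog.nil, le_refl _, Or.inr ⟨φ 0, rfl⟩⟩
    constructor
    · have h3 := BIN_and hAPP n _ _ 0 (m + 1) hv h1
      have e : (fun x : Fin n → Bool => decide (∀ i, x (φ i) = true)) =
          fun x => x (φ 0) && decide (∀ i : Fin m, x (φ i.succ) = true) := by
        funext x
        rw [Bool.eq_iff_iff]
        simp only [Bool.and_eq_true, decide_eq_true_eq]
        exact Fin.forall_fin_succ
      rw [e]
      rw [Nat.zero_add] at h3
      exact h3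
    · have h3 := BIN_or hAPP n _ _ 0 (m + 1) hv h2
      have e : (fun x : Fin n → Bool => decide (∃ i, x (φ i) = true)) =
          fun x => x (φ 0) || decide (∃ i : Fin m, x (φ i.succ) = true) := by
        funext x
        rw [Bool.eq_iff_iff]
        simp only [Bool.or_eq_true, decide_eq_true_eq]
        exact Fin.exists_fin_succ
      rw [e]
      rw [Nat.zero_add] at h3
      exact h3

end Pool.Agent.PB
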